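import Pool.Agent.Helper70.Isg.Goals2

set_option autoImplicit false

namespace Pool.Agent.Helper31.Isg

open Pool.Agent.Helper70.Isg

theorem pf_LOCB : S_LOCB := by
  intro d β Λ F η η' f h1 h2 h3
  have hf : ∀ τ : Λ → Bool, f (glue Λ τ η) = f (glue Λ τ η') := by
    intro τ
    apply h3
    intro v hv
    unfold glue
    by_cases hΛ : v ∈ Λ
    · rw [dif_pos hΛ, dif_pos hΛ]
    · rw [dif_neg hΛ, dif_neg hΛ]
      exact h2 v hv hΛ
  have hw : ∀ τ : Λ → Bool, wt β Λ (glue Λ τ η) = wt β Λ (glue Λ τ η') := by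
    intro τ
    unfold wt enrg
    congr 2
    apply Finset.sum_congr rfl
    intro u hu
    apply Finset.sum_congr rfl
    intro v hv
    have e1 : glue Λ τ η u = glue Λ τ η' u := by
      unfold glue
      rw [dif_pos hu, dif_pos hu]
    have e2 : glue Λ τ η v = glue Λ τ η' v := by
      unfold glue
      by_cases hΛ : v ∈ Λ
      · rw [dif_pos hΛ, dif_pos hΛ]
      · rw [dif_neg hΛ, dif_neg hΛ]
        exact h1 u hu v hv hΛ
    rw [e1, e2]
  unfold ev pf
  simp only [hf, hw]

end Pool.Agent.Helper31.Isg
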