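import Pool.Agent.Helper70.Isg.Goals2

set_option autoImplicit false

namespace Pool.Agent.Helper31.Isg

open Pool.Agent.Helper70.Isg

theorem pf_MOND (hB : S_BASIC) (hC : S_CONS) (hM : S_MONB) : S_MOND := by
  intro d β Δ Λ f hβ hΔ hf
  obtain ⟨-, -, -, -, -, -, -, -, hconst, -, -, hmono, -⟩ := hB d
  rw [hC d β Δ Λ allT f hΔ]
  calc ev β Λ allT (fun σ => ev β Δ σ f) ≤ ev β Λ allT (fun _ => ev β Δ allT f) :=
        hmono β Λ allT _ _ fun σ => hM d β Δ σ allT f hβ (fun v _ => Bool.le_true _) hf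
    _ = ev β Δ allT f := hconst β Λ allT _

end Pool.Agent.Helper31.Isg
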