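import Pool.Agent.Helper70.Isg.Goals2

set_option autoImplicit false

namespace Pool.Agent.Helper31.Isg

open Pool.Agent.Helper70.Isg

/-- the basic inequality -/
theorem fact {a s : ℝ} (b : ℝ) (ha : 0 ≤ a) (has : a ≤ s) :
    Real.sinh (2 * s) - Real.sinh (2 * a) ≤
      Real.cosh (2 * a) * Real.cosh (2 * b) * Real.sinh (2 * s) -
        Real.sinh (2 * a) * Real.sinh (2 * b) * Real.cosh (2 * s) := by
  have h1 : Real.sinh (2 * s - 2 * a) = Real.sinh (2 * s) * Real.cosh (2 * a) -
      Real.cosh (2 * s) * Real.sinh (2 * a) := Real.sinh_sub _ _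
  have h2 : 0 ≤ Real.sinh (2 * s - 2 * a) := Real.sinh_nonneg_iff.2 (by linarith)
  have h3 : 0 ≤ Real.sinh (2 * a) := Real.sinh_nonneg_iff.2 (by linarith)
  have h4 : Real.sinh (2 * a) ≤ Real.sinh (2 * s) := Real.sinh_le_sinh.2 (by linarith)
  have c1 := Real.cosh_sq (2 * a)
  have c2 := Real.cosh_sq (2 * b)
  have c3 := Real.cosh_sq (2 * s)
  have p1 := Real.cosh_pos (2 * a)
  have p2 := Real.cosh_pos (2 * b)
  have p3 := Real.cosh_pos (2 * s)
  have hb : |Real.sinh (2 * b)| ≤ Real.cosh (2 * b) := by
    apply abs_le_of_sq_le_sq _ p2.le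
    nlinarith
  rw [h1] at h2
  generalize Real.sinh (2 * a) = sa at *
  generalize Real.cosh (2 * a) = ca at *
  generalize Real.sinh (2 * b) = sb at *
  generalize Real.cosh (2 * b) = cb at *
  generalize Real.sinh (2 * s) = ss at *
  generalize Real.cosh (2 * s) = cs at *
  have hX : 0 ≤ ca * cb * ss - sa * sb * cs := by
    have e1 : sa * cs * sb ≤ sa * cs * cb :=
      mul_le_mul_of_nonneg_left ((le_abs_self _).trans hb) (by positivity)
    have e2 : 0 ≤ (ss * ca - cs * sa) * cb := mul_nonneg h2 p2.le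
    nlinarith
  have hsq : (ss - sa) ^ 2 ≤ (ca * cb * ss - sa * sb * cs) ^ 2 := by
    have e1 : (ca * cb * ss - sa * sb * cs) ^ 2 - (ss ^ 2 - sa ^ 2) =
        (ca * ss * sb - sa * cs * cb) ^ 2 := by
      have : (ca * cb * ss - sa * sb * cs) ^ 2 - (ca * ss * sb - sa * cs * cb) ^ 2 =
          ((ca * ss) ^ 2 - (sa * cs) ^ 2) * (cb ^ 2 - sb ^ 2) := by ring
      have h5 : (ca * ss) ^ 2 - (sa * cs) ^ 2 = ss ^ 2 - sa ^ 2 := by
        rw [mul_pow, mul_pow, c1, c3]
        ring
      have h6 : cb ^ 2 - sb ^ 2 = 1 := by rw [c2]; ring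
      rw [h5, h6] at this
      linarith
    have e2 : (ss - sa) ^ 2 ≤ ss ^ 2 - sa ^ 2 := by nlinarith
    nlinarith [sq_nonneg (ca * ss * sb - sa * cs * cb)]
  exact le_of_abs_le (abs_le_of_sq_le_sq hsq hX)

theorem first_part (al be s : ℝ) :
    (Real.exp (-2 * al) * Real.sinh (2 * (s - be)) + Real.exp (2 * al) *
      Real.sinh (2 * (s + be))) / 2 =
    Real.cosh (2 * al) * Real.cosh (2 * be) * Real.sinh (2 * s) +
      Real.sinh (2 * al) * Real.sinh (2 * be) * Real.cosh (2 * s) := by
  have h1 : Real.exp (-2 * al) = Real.cosh (2 * al) - Real.sinh (2 * al) := by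
    rw [Real.cosh_sub_sinh]
    congr 1
    ring
  have h2 : Real.exp (2 * al) = Real.cosh (2 * al) + Real.sinh (2 * al) :=
    (Real.cosh_add_sinh _).symm
  rw [h1, h2, mul_sub, mul_add, Real.sinh_sub, Real.sinh_add]
  ring

theorem pattern (q : ℤ → ℝ) (k₁ k₂ : ℝ) (h12 : k₁ < k₂)
    (hp : ∀ k ∈ ({-2, -1, 0, 1, 2} : Finset ℤ), k₁ < k → (k : ℝ) < k₂ → 0 ≤ q k)
    (hn : ∀ k ∈ ({-2, -1, 0, 1, 2} : Finset ℤ), ¬ (k₁ < k ∧ (k : ℝ) < k₂) → q k ≤ 0) :
    ∃ k₁ k₂ : ℝ, k₁ < k₂ ∧
      (∀ k ∈ Finset.Icc (-2 : ℤ) 2, k₁ < k → (k : ℝ) < k₂ → 0 ≤ q k) ∧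
      (∀ k ∈ Finset.Icc (-2 : ℤ) 2, ¬ (k₁ < k ∧ (k : ℝ) < k₂) → q k ≤ 0) := by
  have h : Finset.Icc (-2 : ℤ) 2 = {-2, -1, 0, 1, 2} := by decide
  exact ⟨k₁, k₂, h12, by rw [h]; exact hp, by rw [h]; exact hn⟩

theorem pf_SIGN : S_SIGN := by
  intro A B C A' B' C' M hC hC' hM hM' m1 m2 m3
  have v2 : qc A B C A' B' C' M 2 =
      -(1 / 2) * Real.exp (2 * (B + B')) * Real.sinh (2 * ((A - A') + (C - C'))) := by
    simp [qc]
  have v1 : qc A B C A' B' C' M 1 =
      Real.exp (2 * B') * Real.sinh (2 * (C' - (A - A'))) - M / 2 * Real.exp (2 * B) := by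
    simp [qc]
  have v0 : qc A B C A' B' C' M 0 =
      (Real.exp (-2 * (A - A')) * Real.sinh (2 * ((C + C') - (B - B')))
      + Real.exp (2 * (A - A')) * Real.sinh (2 * ((C + C') + (B - B')))) / 2
      - M * Real.cosh (2 * C) := by
    simp [qc]
  have vm1 : qc A B C A' B' C' M (-1) =
      Real.exp (-2 * B') * Real.sinh (2 * (C' + (A - A'))) - M / 2 * Real.exp (-2 * B) := by
    simp [qc]
  have vm2 : qc A B C A' B' C' M (-2) =
      -(1 / 2) * Real.exp (-2 * (B + B')) * Real.sinh (2 * ((C - C') - (A - A'))) := by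
    simp [qc]
  rw [first_part] at v0
  have hMC : M * Real.cosh (2 * C) ≤ Real.sinh (2 * (C + C')) - Real.sinh (2 * (C - C')) := by
    have h1 := mul_le_mul_of_nonneg_right hM' (Real.cosh_pos (2 * C)).le
    rw [mul_add, mul_sub, Real.sinh_add, Real.sinh_sub]
    linarith
  have hq2 : qc A B C A' B' C' M 2 ≤ 0 := by
    rw [v2]
    have h1 : 0 ≤ Real.sinh (2 * ((A - A') + (C - C'))) := Real.sinh_nonneg_iff.2 (by linarith)
    have h2 := Real.exp_pos (2 * (B + B'))
    have h3 := mul_nonneg h2.le h1
    linarith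
  generalize hQ : qc A B C A' B' C' M = q at *
  rcases lt_or_ge (A - A') 0 with hal | hal
  · -- `al < 0`
    have hq0 : 0 ≤ q 0 := by
      rw [v0]
      have h1 := fact (a := -(A - A')) (s := C + C') (B - B') (by linarith) (by linarith)
      rw [mul_neg, Real.cosh_neg, Real.sinh_neg] at h1
      have h2 : Real.sinh (2 * -(A - A')) ≤ Real.sinh (2 * (C - C')) :=
        Real.sinh_le_sinh.2 (by linarith)
      rw [mul_neg, Real.sinh_neg] at h2
      linarith
    have hqm2 : q (-2) ≤ 0 := by
      rw [vm2]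
      have h1 : 0 ≤ Real.sinh (2 * ((C - C') - (A - A'))) := Real.sinh_nonneg_iff.2 (by linarith)
      have h2 := Real.exp_pos (-2 * (B + B'))
      have h3 := mul_nonneg h2.le h1
      linarith
    rcases le_total 0 (q 1) with h1 | h1 <;> rcases le_total 0 (q (-1)) with h2 | h2
    · refine pattern q (-3 / 2) (3 / 2) (by norm_num) ?_ ?_ <;> intro k hk <;>
        simp only [Finset.mem_insert, Finset.mem_singleton] at hk <;>
        rcases hk with rfl | rfl | rfl | rfl | rfl <;> norm_num <;> assumption
    · refine pattern q (-1 / 2) (3 / 2) (by norm_num) ?_ ?_ <;> intro k hk <;>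
        simp only [Finset.mem_insert, Finset.mem_singleton] at hk <;>
        rcases hk with rfl | rfl | rfl | rfl | rfl <;> norm_num <;> assumption
    · refine pattern q (-3 / 2) (1 / 2) (by norm_num) ?_ ?_ <;> intro k hk <;>
        simp only [Finset.mem_insert, Finset.mem_singleton] at hk <;>
        rcases hk with rfl | rfl | rfl | rfl | rfl <;> norm_num <;> assumption
    · refine pattern q (-1 / 2) (1 / 2) (by norm_num) ?_ ?_ <;> intro k hk <;>
        simp only [Finset.mem_insert, Finset.mem_singleton] at hk <;>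
        rcases hk with rfl | rfl | rfl | rfl | rfl <;> norm_num <;> assumption
  · -- `al ≥ 0`
    have hqm1 : 0 ≤ q (-1) := by
      rw [vm1]
      have h1 : Real.exp (-2 * B) * Real.exp (-2 * (A - A')) ≤ Real.exp (-2 * B') := by
        rw [← Real.exp_add]
        exact Real.exp_le_exp.2 (by linarith)
      have h2 : 0 ≤ Real.sinh (2 * (C' + (A - A'))) := Real.sinh_nonneg_iff.2 (by linarith)
      have h3 := mul_le_mul_of_nonneg_right h1 h2
      have h4 : Real.sinh (2 * C') ≤ Real.exp (-2 * (A - A')) * Real.sinh (2 * (C' + (A - A'))) := by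
        rw [Real.sinh_eq, Real.sinh_eq, mul_div_assoc', mul_sub, ← Real.exp_add, ← Real.exp_add]
        have h5 : Real.exp (-2 * (A - A') + 2 * (C' + (A - A'))) = Real.exp (2 * C') := by
          congr 1
          ring
        have h6 : Real.exp (-2 * (A - A') + -(2 * (C' + (A - A')))) ≤ Real.exp (-(2 * C')) :=
          Real.exp_le_exp.2 (by linarith)
        rw [h5]
        linarith
      have h7 := Real.exp_pos (-2 * B)
      have h8 := mul_le_mul_of_nonneg_left h4 h7.le
      have h9 : M / 2 * Real.exp (-2 * B) ≤ Real.exp (-2 * B) * Real.sinh (2 * C') := by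
        rw [mul_comm (M / 2)]
        exact mul_le_mul_of_nonneg_left (by linarith) h7.le
      rw [mul_assoc] at h3
      linarith
    have hor : 0 < q 1 → 0 ≤ q 0 := by
      intro hq1
      rcases lt_or_ge (B - B') 0 with hbe | hbe
      · rw [v0]
        have h1 := fact (a := -(B - B')) (s := C + C') (A - A') (by linarith) (by linarith)
        rw [mul_neg, Real.cosh_neg, Real.sinh_neg] at h1
        have h2 : Real.sinh (2 * -(B - B')) ≤ Real.sinh (2 * (C - C')) :=
          Real.sinh_le_sinh.2 (by linarith)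
        rw [mul_neg, Real.sinh_neg] at h2
        linarith
      · rw [v1] at hq1
        rw [v0]
        have e0 : Real.exp (2 * B') = Real.exp (2 * B) * Real.exp (-2 * (B - B')) := by
          rw [← Real.exp_add]
          congr 1
          ring
        have h1 : M / 2 < Real.exp (-2 * (B - B')) * Real.sinh (2 * (C' - (A - A'))) := by
          rw [e0] at hq1
          have h2 := Real.exp_pos (2 * B)
          by_contra hcon
          push Not at hcon
          have h3 := mul_le_mul_of_nonneg_left hcon h2.le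
          linarith
        have h2 : M * Real.cosh (2 * C) ≤ Real.exp (-2 * (B - B')) *
            (2 * Real.sinh (2 * (C' - (A - A'))) * Real.cosh (2 * C)) := by
          have := mul_le_mul_of_nonneg_right h1.le (Real.cosh_pos (2 * C)).le
          linarith
        have h3 : 2 * Real.sinh (2 * (C' - (A - A'))) * Real.cosh (2 * C) =
            Real.sinh (2 * ((C + C') - (A - A'))) - Real.sinh (2 * ((C - C') + (A - A'))) := by
          rw [show 2 * ((C + C') - (A - A')) = 2 * (C' - (A - A')) + 2 * C by ring,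
            show 2 * ((C - C') + (A - A')) = 2 * C - 2 * (C' - (A - A')) by ring,
            Real.sinh_add, Real.sinh_sub]
          ring
        have h4 : 0 ≤ Real.sinh (2 * ((C - C') + (A - A'))) :=
          Real.sinh_nonneg_iff.2 (by linarith)
        have h5 := Real.exp_pos (-2 * (B - B'))
        have h6 : Real.exp (-2 * (B - B')) ≤ 1 := Real.exp_le_one_iff.2 (by linarith)
        have h7 : 0 ≤ Real.sinh (2 * (C + C')) := Real.sinh_nonneg_iff.2 (by linarith)
        have h8 : Real.sinh (2 * ((C + C') - (A - A'))) ≤ Real.sinh (2 * (C + C')) :=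
          Real.sinh_le_sinh.2 (by linarith)
        have h9 : Real.exp (-2 * (B - B')) *
            (2 * Real.sinh (2 * (C' - (A - A'))) * Real.cosh (2 * C)) ≤
            Real.sinh (2 * (C + C')) := by
          rw [h3]
          calc Real.exp (-2 * (B - B')) * (Real.sinh (2 * ((C + C') - (A - A'))) -
                Real.sinh (2 * ((C - C') + (A - A')))) ≤
                Real.exp (-2 * (B - B')) * Real.sinh (2 * (C + C')) :=
                mul_le_mul_of_nonneg_left (by linarith) h5.le
            _ ≤ 1 * Real.sinh (2 * (C + C')) := mul_le_mul_of_nonneg_right h6 h7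
            _ = _ := one_mul _
        have c1 := Real.one_le_cosh (2 * (A - A'))
        have c2 := Real.one_le_cosh (2 * (B - B'))
        have c3 : 1 ≤ Real.cosh (2 * (A - A')) * Real.cosh (2 * (B - B')) :=
          one_le_mul_of_one_le_of_one_le c1 c2
        have c4 := mul_le_mul_of_nonneg_right c3 h7
        have c5 : 0 ≤ Real.sinh (2 * (A - A')) * Real.sinh (2 * (B - B')) *
            Real.cosh (2 * (C + C')) :=
          mul_nonneg (mul_nonneg (Real.sinh_nonneg_iff.2 (by linarith))
            (Real.sinh_nonneg_iff.2 (by linarith))) (Real.cosh_pos _).le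
        linarith
    rcases lt_or_ge 0 (q 1) with h1 | h1
    · have h0 := hor h1
      have h1' := h1.le
      rcases le_total 0 (q (-2)) with h2 | h2
      · refine pattern q (-5 / 2) (3 / 2) (by norm_num) ?_ ?_ <;> intro k hk <;>
          simp only [Finset.mem_insert, Finset.mem_singleton] at hk <;>
          rcases hk with rfl | rfl | rfl | rfl | rfl <;> norm_num <;> assumption
      · refine pattern q (-3 / 2) (3 / 2) (by norm_num) ?_ ?_ <;> intro k hk <;>
          simp only [Finset.mem_insert, Finset.mem_singleton] at hk <;>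
          rcases hk with rfl | rfl | rfl | rfl | rfl <;> norm_num <;> assumption
    · rcases le_total 0 (q 0) with h0 | h0 <;> rcases le_total 0 (q (-2)) with h2 | h2
      · refine pattern q (-5 / 2) (1 / 2) (by norm_num) ?_ ?_ <;> intro k hk <;>
          simp only [Finset.mem_insert, Finset.mem_singleton] at hk <;>
          rcases hk with rfl | rfl | rfl | rfl | rfl <;> norm_num <;> assumption
      · refine pattern q (-3 / 2) (1 / 2) (by norm_num) ?_ ?_ <;> intro k hk <;>
          simp only [Finset.mem_insert, Finset.mem_singleton] at hk <;>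
          rcases hk with rfl | rfl | rfl | rfl | rfl <;> norm_num <;> assumption
      · refine pattern q (-5 / 2) (-1 / 2) (by norm_num) ?_ ?_ <;> intro k hk <;>
          simp only [Finset.mem_insert, Finset.mem_singleton] at hk <;>
          rcases hk with rfl | rfl | rfl | rfl | rfl <;> norm_num <;> assumption
      · refine pattern q (-3 / 2) (-1 / 2) (by norm_num) ?_ ?_ <;> intro k hk <;>
          simp only [Finset.mem_insert, Finset.mem_singleton] at hk <;>
          rcases hk with rfl | rfl | rfl | rfl | rfl <;> norm_num <;> assumption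

end Pool.Agent.Helper31.Isg
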